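import Pool.Agent.Lib.helper21.NS
set_option linter.style.longLine false
namespace Pool.Agent.Results.MP_a36908_lc.Yes
open Set Cardinal Order Function Pool.Agent.Lib.helper21.NS

/-- `ω₁` -/
abbrev W : Type := (ℵ₁ : Cardinal.{0}).ord.ToType

def Superclub (S : W → Set W) : Prop := (∀ α, S α ⊆ Iio α) ∧
  ∀ A : Set W, ¬ A.Countable → ∃ B ⊆ A, ¬ B.Countable ∧ IsStationary {α | B ∩ Iio α = S α}

def AD (A : W → Set ℕ) : Prop := (∀ β, (A β).Infinite) ∧ Pairwise fun β γ => (A β ∩ A γ).Finite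

def Sep (B : Set ℕ) (A : W → Set ℕ) : Prop :=
  ¬ {β | (A β \ B).Finite}.Countable ∧ ¬ {β | (A β \ Bᶜ).Finite}.Countable

def Luzin (A : W → Set ℕ) : Prop := AD A ∧ ∀ α n, {β | β < α ∧ A α ∩ A β ⊆ Iio n}.Finite

lemma step {I J : Type} [Countable I] [Countable J] [Nonempty I] [Nonempty J] (A : I → Set ℕ) (S : J → Set I) :
    ∃ D : Set ℕ, (∀ i, (A i).Infinite) → (Pairwise fun i j => (A i ∩ A j).Finite) → (∀ i, (D ∩ A i).Finite) ∧
      ∀ j, ((S j).Infinite → ∀ m, ∃ k ∈ D, m ≤ k ∧ ∃ i ∈ S j, k ∈ A i) ∧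
      ∀ i, (∀ a : Finset ℕ, {x ∈ S j | ↑a ∩ A x ⊆ A i}.Infinite) → {x ∈ S j | D ∩ A x ⊆ A i}.Infinite := by
  classical
  by_cases H : (∀ i, (A i).Infinite) ∧ Pairwise fun i j => (A i ∩ A j).Finite
  swap
  · exact ⟨∅, fun a b => absurd ⟨a, b⟩ H⟩
  let r := fun p q : Finset ℕ × Finset I => p.1 ⊆ q.1 ∧ p.2 ⊆ q.2 ∧ ∀ k ∈ q.1, ∀ i ∈ p.2, k ∈ A i → k ∈ p.1
  have : ∀ (t : J × I × Finset I × ℕ) p, ∃ q, r p q ∧ t.2.1 ∈ q.2 ∧
      ((S t.1).Infinite → ∃ k ∈ q.1, t.2.2.2 ≤ k ∧ ∃ i ∈ S t.1, k ∈ A i) ∧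
      ((∀ a : Finset ℕ, {x ∈ S t.1 | ↑a ∩ A x ⊆ A t.2.1}.Infinite) →
        ∃ x ∈ q.2, x ∉ t.2.2.1 ∧ x ∈ S t.1 ∧ ↑q.1 ∩ A x ⊆ A t.2.1) := fun ⟨j, i, G, m⟩ ⟨a, F⟩ => by
    obtain ⟨b, b1, b2, b3⟩ : ∃ b : Finset ℕ, a ⊆ b ∧ (∀ k ∈ b, ∀ i ∈ F, k ∈ A i → k ∈ a) ∧
        ((S j).Infinite → ∃ k ∈ b, m ≤ k ∧ ∃ i ∈ S j, k ∈ A i) := by
      by_cases e : (S j).Infinite
      · obtain ⟨x, x1, x2⟩ := e.exists_notMem_finset F
        obtain ⟨k, k1, k2⟩ := (H.1 x).exists_notMem_finite ((finite_Iio m).union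
          (F.finite_toSet.biUnion fun y hy => H.2 (show x ≠ y from fun c => x2 (c ▸ hy))))
        simp only [mem_union, mem_Iio, mem_iUnion, mem_inter_iff, not_or, not_lt, not_exists, not_and] at k2
        exact ⟨insert k a, Finset.subset_insert _ _, fun l c y d f => (Finset.mem_insert.1 c).elim
          (fun c => (k2.2 y d k1 (c ▸ f)).elim) id, fun _ => ⟨k, by simp, k2.1, x, x1, k1⟩⟩
      · exact ⟨a, subset_rfl, fun _ c _ _ _ => c, fun c => absurd c e⟩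
    by_cases e : ∀ a : Finset ℕ, {x ∈ S j | ↑a ∩ A x ⊆ A i}.Infinite
    · obtain ⟨x, x1, x2⟩ := (e b).exists_notMem_finset G
      exact ⟨(b, insert i (insert x F)), ⟨b1, fun _ c => by simp [c], b2⟩, by simp, b3, fun _ => ⟨x, by simp, x2, x1⟩⟩
    · exact ⟨(b, insert i F), ⟨b1, fun _ c => by simp [c], b2⟩, by simp, b3, fun c => absurd c e⟩
  choose f hf using this
  obtain ⟨t, ht⟩ := exists_surjective_nat (J × I × Finset I × ℕ)
  let p : ℕ → Finset ℕ × Finset I := fun n => n.rec (∅, ∅) fun n => f (t n)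
  have m : ∀ i j, i ≤ j → r (p i) (p j) := fun i j c => by
    induction c with
    | refl => exact ⟨subset_rfl, subset_rfl, fun _ c _ _ _ => c⟩
    | @step j _ c =>
      have d := (hf (t j) (p j)).1
      exact ⟨c.1.trans d.1, c.2.1.trans d.2.1, fun k x i y z => c.2.2 k (d.2.2 k x i (c.2.1 y) z) i y z⟩
  have u : ∀ n, ∀ x ∈ (p n).2, (⋃ n, ((p n).1 : Set ℕ)) ∩ A x ⊆ (p n).1 := fun n x c k ⟨d, e⟩ => by
    obtain ⟨l, d⟩ := mem_iUnion.1 d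
    exact (le_total l n).elim (fun y => (m _ _ y).1 d) fun y => (m _ _ y).2.2 k d x c e
  refine ⟨⋃ n, ((p n).1 : Set ℕ), fun _ _ => ⟨fun i => ?_, fun j => ⟨fun c l => ?_, fun i c e => ?_⟩⟩⟩
  · obtain ⟨n, c⟩ := ht (Classical.arbitrary J, i, ∅, 0)
    exact (Finset.finite_toSet _).subset (u (n + 1) i ((show (t n).2.1 = i by rw [c]) ▸ (hf (t n) (p n)).2.1))
  · obtain ⟨n, d⟩ := ht (j, Classical.arbitrary I, ∅, l)
    obtain ⟨k, x, y⟩ := (hf (t n) (p n)).2.2.1 (by rwa [d])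
    exact ⟨k, mem_iUnion.2 ⟨n + 1, x⟩, by rwa [d] at y⟩
  · obtain ⟨n, d⟩ := ht (j, i, e.toFinset, 0)
    obtain ⟨x, a, b, y, w⟩ := (hf (t n) (p n)).2.2.2 (by rwa [d])
    have := fun k (z : k ∈ _) => w ⟨u (n + 1) x a z, z.2⟩
    rw [d] at b y this
    exact b (e.mem_toFinset.2 ⟨y, this⟩)

theorem result (S : W → Set W) (h : Superclub S) : ∃ A : W → Set ℕ, AD A ∧ (∀ B : Set ℕ, B.Infinite → ¬ Sep B A) ∧
    ∀ e : W → W, StrictMono e → ¬ Luzin (A ∘ e) := by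
  have R : Reg W := reg_of_isRegular isRegular_aleph_one aleph0_lt_aleph_one
  have mk : #W = ℵ₁ := mk_ord_toType _
  have ct : ∀ β : W, (Iic β).Countable := fun β => by
    rw [← le_aleph0_iff_set_countable, ← lt_succ_iff, succ_aleph0]; exact (R.small β).trans_eq mk
  have : ∀ β : W, Countable (Iio β) := fun β => ((ct β).mono Iio_subset_Iic_self).to_subtype
  have ub : ∀ {B : Set W}, ¬ B.Countable → ∀ β, ∃ γ ∈ B, β < γ := fun c β =>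
    by_contra fun k => c ((ct β).mono fun x y => not_lt.1 fun z => k ⟨x, y, z⟩)
  have st : ∀ {B : Set W}, IsStationary B → ∀ β, ∃ γ ∈ B, β ≤ γ := fun c β =>
    c (t := Ici β) ⟨fun _ a ⟨x, b⟩ _ _ d => le_trans (a b) (d.1 b), fun x => ⟨max β x, le_max_left β x, le_max_right _ _⟩⟩
  let C := fun i => {k : ℕ | k.unpair.1 = i}
  let T := fun (β : W) (o : Option (Iio β)) => o.elim (Set.univ : Set (ℕ ⊕ Iio β)) fun α => Sum.inr '' {γ | γ.1 ∈ S α}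
  choose g hg using fun β (f : Iio β → Set ℕ) => step (Sum.elim C f) (T β)
  let A : W → Set ℕ := WellFoundedLT.fix fun β f => g β fun γ => f γ γ.2
  have e : ∀ β, A β = g β fun γ => A γ := fun β => WellFoundedLT.fix_eq _ β
  have K := fun β => hg β fun γ => A γ
  simp only [← e] at K
  have L : ∀ β : W, (∀ i, (Sum.elim C (fun γ : Iio β => A γ) i).Infinite) ∧ Pairwise fun i j =>
      (Sum.elim C (fun γ : Iio β => A γ) i ∩ Sum.elim C (fun γ : Iio β => A γ) j).Finite := fun β => by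
    induction β using WellFoundedLT.induction with | ind β ih =>
    have k := fun γ : Iio β => K γ (ih γ γ.2).1 (ih γ γ.2).2
    refine ⟨?_, ?_⟩
    · rintro (i | γ)
      · exact infinite_of_injective_forall_mem (f := Nat.pair i) (fun _ _ c => (Nat.pair_eq_pair.1 c).2) (by simp [C])
      · exact infinite_of_forall_exists_gt fun m => let ⟨x, a, b, _⟩ := ((k γ).2 none).1 infinite_univ (m + 1); ⟨x, a, b⟩
    rintro (i | γ) (j | δ) n
    · exact finite_empty.subset fun x c => n (congrArg _ (c.1.symm.trans c.2))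
    · exact inter_comm _ _ ▸ (k δ).1 (.inl i)
    · exact (k γ).1 (.inl j)
    rcases lt_or_gt_of_ne (fun c => n (congrArg _ c)) with c | c
    exacts [inter_comm _ _ ▸ (k δ).1 (.inr ⟨γ, c⟩), (k γ).1 (.inr ⟨δ, c⟩)]
  replace K := fun β => K β (L β).1 (L β).2
  have ad : AD A := ⟨fun β => let ⟨γ, c⟩ := R.exists_gt β; (L γ).1 (.inr ⟨β, c⟩), fun β γ n =>
    (lt_or_gt_of_ne n).elim (fun c => ((K γ).1 (.inr ⟨β, c⟩)).subset fun _ x => x.symm) fun c => (K β).1 (.inr ⟨γ, c⟩)⟩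
  have tr : ∀ {α β : W} (c : α < β) {Q : ℕ ⊕ Iio β → Prop}, {x ∈ T β (some ⟨α, c⟩) | Q x}.Infinite ↔
      {γ ∈ S α | ∃ d : γ < β, Q (.inr ⟨γ, d⟩)}.Infinite := fun {α β} c Q => by
    rw [show {x ∈ T β (some ⟨α, c⟩) | Q x} = Sum.inr '' ((↑) ⁻¹' {γ ∈ S α | ∃ d : γ < β, Q (.inr ⟨γ, d⟩)}) by
      ext (x | ⟨x, y : x < β⟩) <;> simp [T, Subtype.ext_iff, *], infinite_image_iff Sum.inr_injective.injOn]
    exact ⟨fun k d => k (d.preimage Subtype.val_injective.injOn), fun k => k.preimage fun x y => ⟨⟨x, y.2.1⟩, rfl⟩⟩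
  have gs : ∀ Y : Set W, ¬ Y.Countable → ∃ α β, S α ⊆ Y ∧ ∀ a : Finset ℕ, {x ∈ S α | ↑a ∩ A x ⊆ A β}.Infinite := fun Y c => by
    obtain ⟨B, b1, b2, b3⟩ := h.2 Y c
    have : ∀ a : Finset ℕ × Finset ℕ, ∃ δ, ∀ β ∈ B, δ < β → ↑a.1 ∩ A β = a.2 →
        {x ∈ B ∩ Iio δ | ↑a.1 ∩ A x = a.2}.Infinite := fun a => by
      by_cases f : {x ∈ B | ↑a.1 ∩ A x = a.2}.Finite
      · obtain ⟨δ, d⟩ := R.bdd _ (f.lt_aleph0.trans R.unc)
        exact ⟨δ, fun β x y z => absurd (d ⟨x, z⟩) y.not_ge⟩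
      · obtain ⟨δ, d⟩ := R.bdd (range fun n => (Set.Infinite.natEmbedding _ f n).1)
          (mk_range_le.trans_lt (mk_le_aleph0.trans_lt R.unc))
        obtain ⟨ε, d'⟩ := R.exists_gt δ
        exact ⟨ε, fun _ _ _ _ => infinite_of_injective_forall_mem (Subtype.val_injective.comp
          (Set.Infinite.natEmbedding _ f).injective) fun n => let x := Set.Infinite.natEmbedding _ f n
            ⟨⟨x.2.1, (d ⟨n, rfl⟩).trans_lt d'⟩, x.2.2⟩⟩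
    choose δ hδ using this
    obtain ⟨ε, d⟩ := R.bdd (range δ) (mk_range_le.trans_lt (mk_le_aleph0.trans_lt R.unc))
    obtain ⟨α, a1, a2⟩ := st b3 ε
    obtain ⟨β, x, y⟩ := ub b2 ε
    classical
    refine ⟨α, β, fun γ z => b1 (a1.ge z).1, fun a => (hδ (a, a.filter (· ∈ A β)) β x ((d ⟨_, rfl⟩).trans_lt y)
      (by ext; simp)).mono fun γ z => ⟨a1.le ⟨z.1.1, z.1.2.trans_le ((d ⟨_, rfl⟩).trans a2)⟩, z.2.le.trans fun _ l => (Finset.mem_filter.1 l).2⟩⟩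
  refine ⟨A, ad, fun B _ ⟨b1, b2⟩ => ?_, fun e he lu => ?_⟩
  · obtain ⟨n, c⟩ : ∃ n, ¬ {β | A β \ B ⊆ Iio n}.Countable := not_forall.1 fun c => b1 ((countable_iUnion c).mono
      fun β d => let ⟨n, d⟩ := Set.Finite.bddAbove d; mem_iUnion.2 ⟨n + 1, show A β \ B ⊆ _ from fun x y => Nat.lt_succ_of_le (d y)⟩)
    obtain ⟨α, β, c, d⟩ := gs _ c
    obtain ⟨γ, x, y⟩ := ub b2 α
    obtain ⟨m, z⟩ := x.bddAbove
    obtain ⟨k, k1, k2, _, ⟨i, k3, rfl⟩, k4⟩ := ((K γ).2 (some ⟨α, y⟩)).1 (((tr y (Q := fun _ => True)).2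
      ((d ∅).mono fun x l => ⟨l.1, (h.1 α l.1).trans y, trivial⟩)).mono fun _ l => l.1) (n + m + 1)
    have := z ⟨k1, fun l => by have := c k3 ⟨k4, l⟩; simp at this; omega⟩
    omega
  · have c : ¬ (range e).Countable := fun c => R.unc.not_ge (mk_range_eq e he.injective ▸ le_aleph0_iff_set_countable.2 c)
    obtain ⟨α, β, x, d⟩ := gs _ c
    obtain ⟨_, ⟨γ, rfl⟩, y⟩ := ub c (max α β)
    obtain ⟨y, z⟩ := max_lt_iff.1 y
    obtain ⟨n, k⟩ := ((K _).1 (.inr ⟨β, z⟩)).bddAbove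
    refine (tr y).1 (((K _).2 (some ⟨α, y⟩)).2 (.inr ⟨β, z⟩) fun a => (tr y).2 ((d a).mono fun x l =>
      ⟨l.1, (h.1 α l.1).trans y, l.2⟩)) (((lu.2 γ (n + 1)).image e).subset fun i ⟨a, b, l⟩ => ?_)
    obtain ⟨i, rfl⟩ := x a
    exact ⟨i, ⟨he.lt_iff_lt.1 b, fun j m => Nat.lt_succ_of_le (k ⟨m.1, l m⟩)⟩, rfl⟩

end Pool.Agent.Results.MP_a36908_lc.Yes
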